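import Pool.Agent.Helper43.AX.St

/-! Module UN of project AX (helper43), adapted from `Pool/Agent/Helper48/GD/M_UN.lean` (helper48). -/

set_option autoImplicit false

namespace Pool.Agent.Helper41.AX

open Pool.Agent.Helper43.GD

variable {L H A : Type} [CommRing L] [Group H] [Group A]

private theorem hom_ext {s : Sys L H} (hs : s.gp = ⊤) {f g : H →* A}
    (h1 : ∀ a, f (s.E a) = g (s.E a)) (h2 : ∀ b, f (s.F b) = g (s.F b)) : f = g := by
  apply MonoidHom.eq_of_eqOn_dense hs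
  rintro y (⟨a, rfl⟩ | ⟨b, rfl⟩)
  · exact h1 a
  · exact h2 b

/-- the system twisted by `u` -/
private def tw (s : Sys L H) (u : Lˣ) : Sys L H where
  E a := s.E ((u : L) * a)
  F b := s.F (((u⁻¹ : Lˣ) : L) * b)
  Eadd a b := by rw [mul_add, s.Eadd]
  Fadd a b := by rw [mul_add, s.Fadd]

private theorem tw_om (s : Sys L H) (u v : Lˣ) : (tw s u).om v = s.om (u * v) := by
  have e : (((u * v)⁻¹ : Lˣ) : L) = ((u⁻¹ : Lˣ) : L) * ((v⁻¹ : Lˣ) : L) := by
    rw [mul_inv, Units.val_mul]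
  change s.E ((u : L) * (v : L)) * s.F (((u⁻¹ : Lˣ) : L) * -((v⁻¹ : Lˣ) : L)) *
    s.E ((u : L) * (v : L)) = s.E ((u * v : Lˣ) : L) * s.F (-(((u * v)⁻¹ : Lˣ) : L)) *
      s.E ((u * v : Lˣ) : L)
  rw [e, Units.val_mul, mul_neg]

private theorem tw_weyl (s : Sys L H) (u v : Lˣ) (h : s.Weyl (u * v)) : (tw s u).Weyl v := by
  have e : (((u * v)⁻¹ : Lˣ) : L) = ((u⁻¹ : Lˣ) : L) * ((v⁻¹ : Lˣ) : L) := by
    rw [mul_inv, Units.val_mul]
  have hu := u.mul_inv
  constructor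
  · intro a
    rw [tw_om]
    change s.om (u * v) * s.E ((u : L) * a) * (s.om (u * v))⁻¹ =
      s.F (((u⁻¹ : Lˣ) : L) * -(((v⁻¹ : Lˣ) : L) * ((v⁻¹ : Lˣ) : L) * a))
    rw [h.1]
    congr 1
    rw [e]
    linear_combination (-((u⁻¹ : Lˣ) : L) * ((v⁻¹ : Lˣ) : L) * ((v⁻¹ : Lˣ) : L) * a) * hu
  · intro a
    rw [tw_om]
    change s.om (u * v) * s.F (((u⁻¹ : Lˣ) : L) * a) * (s.om (u * v))⁻¹ =
      s.E ((u : L) * -((v : L) * (v : L) * a))
    rw [h.2]
    congr 1
    rw [Units.val_mul]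
    linear_combination (-(u : L) * (v : L) * (v : L) * a) * hu

/-- `φ` multiplies the parameters by `u` -/
private def Mu (s : Sys L H) (u : Lˣ) (f : H →* H) : Prop :=
  (∀ a, f (s.E a) = s.E ((u : L) * a)) ∧ (∀ b, f (s.F b) = s.F (((u⁻¹ : Lˣ) : L) * b))

private theorem Mu.om {s : Sys L H} {u : Lˣ} {f : H →* H} (hf : Mu s u f) (v : Lˣ) :
    f (s.om v) = s.om (u * v) := by
  rw [← tw_om]
  change f (s.E (v : L) * s.F (-((v⁻¹ : Lˣ) : L)) * s.E (v : L)) =
    s.E ((u : L) * (v : L)) * s.F (((u⁻¹ : Lˣ) : L) * -((v⁻¹ : Lˣ) : L)) * s.E ((u : L) * (v : L))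
  rw [map_mul, map_mul, hf.1, hf.2]

private theorem Mu.weyl {s : Sys L H} {u : Lˣ} {f : H →* H} (hf : Mu s u f) {v : Lˣ} (hv : s.Weyl v) :
    s.Weyl (u * v) := by
  have e : (((u * v)⁻¹ : Lˣ) : L) = ((u⁻¹ : Lˣ) : L) * ((v⁻¹ : Lˣ) : L) := by
    rw [mul_inv, Units.val_mul]
  have hu := u.mul_inv
  constructor
  · intro a
    have h := congrArg f (hv.1 (((u⁻¹ : Lˣ) : L) * a))
    rw [map_mul, map_mul, map_inv, hf.om, hf.1, hf.2, Units.mul_inv_cancel_left] at h
    rw [h]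
    congr 1
    rw [e]
    ring
  · intro a
    have h := congrArg f (hv.2 ((u : L) * a))
    rw [map_mul, map_mul, map_inv, hf.om, hf.1, hf.2, Units.inv_mul_cancel_left] at h
    rw [h]
    congr 1
    rw [Units.val_mul]
    ring

private theorem exists_mu {x : Lˣ} {s : Sys L H} (hh : IsHat x s) {u : Lˣ} (h1 : s.Weyl u)
    (h2 : s.Weyl (u * x)) : ∃ f, Mu s u f := by
  obtain ⟨f, h3, h4⟩ := hh.2.2.2 H (tw s u) (tw_weyl s u 1 (by rwa [mul_one]))
    (tw_weyl s u x h2)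
  exact ⟨f, h3, h4⟩

theorem hUN : Pool.Agent.Helper43.AX.StUN := by
  intro L H _ _ x s hR hh
  have w1 := hh.1
  have wx := hh.2.1
  have wxx : s.Weyl (x * x) := by
    have h := s.weyl_tor (s.tor_of_weyl w1 wx) w1
    simpa using h
  obtain ⟨fx, hfx⟩ := exists_mu hh wx wxx
  have hex : ∀ u, s.Weyl u → ∃ f, Mu s u f := by
    intro u hu
    apply exists_mu hh hu
    rw [mul_comm]
    exact hfx.weyl hu
  have hmul : ∀ u v, s.Weyl u → s.Weyl v → s.Weyl (u * v) := by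
    intro u v hu hv
    obtain ⟨f, hf⟩ := hex u hu
    exact hf.weyl hv
  have hpow : ∀ u, s.Weyl u → ∀ n : ℕ, s.Weyl (u ^ n) := by
    intro u hu n
    induction n with
    | zero => rwa [pow_zero]
    | succ n ih => rw [pow_succ]; exact hmul _ _ ih hu
  have hinv : ∀ u, s.Weyl u → s.Weyl u⁻¹ := by
    intro u hu
    have := hR.fin
    have h1 : u⁻¹ ∈ Submonoid.powers u := by
      rw [(isOfFinOrder_of_finite u).mem_powers_iff_mem_zpowers]
      exact Subgroup.inv_mem _ (Subgroup.mem_zpowers u)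
    obtain ⟨n, hn⟩ := h1
    rw [← hn]
    exact hpow u hu n
  have hneg : s.Weyl (-1) := by
    have e1 : ((-1 : Lˣ)⁻¹ : Lˣ) = -1 := by
      rw [inv_neg, inv_one]
    have e2 : (((-1 : Lˣ) : L)) = -1 := by
      rw [Units.val_neg, Units.val_one]
    have e3 : s.om (-1) = (s.om 1)⁻¹ := s.om_neg 1
    constructor
    · intro a
      have h := w1.2 (-a)
      rw [Units.val_one, one_mul, one_mul, neg_neg] at h
      rw [e3, e1, e2, ← h, inv_inv]
      have e4 : -((-1 : L) * -1 * a) = -a := by ring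
      rw [e4]
      group
    · intro b
      have h := w1.1 (-b)
      rw [inv_one, Units.val_one, one_mul, one_mul, neg_neg] at h
      rw [e3, e2, ← h, inv_inv]
      have e4 : -((-1 : L) * -1 * b) = -b := by ring
      rw [e4]
      group
  refine ⟨hneg, hmul, hinv, ?_⟩
  intro u hu
  obtain ⟨f, hf⟩ := hex u hu
  obtain ⟨g, hg⟩ := hex u⁻¹ (hinv u hu)
  have c1 : g.comp f = MonoidHom.id H := by
    apply hom_ext hh.2.2.1
    · intro a
      change g (f (s.E a)) = s.E a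
      rw [hf.1, hg.1, Units.inv_mul_cancel_left]
    · intro a
      change g (f (s.F a)) = s.F a
      rw [hf.2, hg.2, inv_inv, Units.mul_inv_cancel_left]
  have c2 : f.comp g = MonoidHom.id H := by
    apply hom_ext hh.2.2.1
    · intro a
      change f (g (s.E a)) = s.E a
      rw [hg.1, hf.1, Units.mul_inv_cancel_left]
    · intro a
      change f (g (s.F a)) = s.F a
      rw [hg.2, hf.2, inv_inv, Units.inv_mul_cancel_left]
  exact ⟨MonoidHom.toMulEquiv f g c1 c2, hf.1, hf.2⟩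

end Pool.Agent.Helper41.AX
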